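import Pool.Agent.H7.HZ.Stmts
import Pool.Agent.H14.KQ.GLO

/-!
Board `hz12`, row WSG: nearly all vertices are clean (sum of WSV over all vertices)
-/

set_option autoImplicit false

open Finset

namespace Pool.HZ7

open Pool.Agent.H23.KT Pool.Agent.H46.KW Pool.KQ Pool.GT7 Pool.GU7

namespace H88WSG

lemma sum_kc {V : Type} [Fintype V] [DecidableEq V] (G : SimpleGraph V) (j : ℕ) :
    ∑ v, ((kc G (nb G univ v) j : ℕ) : ℝ) = ((j : ℝ) + 1) * kc G univ (j + 1) := by
  have h3 := H14GLO.exch (G := G) j (fun _ _ => (1 : ℝ))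
  have e1 : ∀ v, ((kc G (nb G univ v) j : ℕ) : ℝ) = ∑ L ∈ clq G (nb G univ v) j, (1 : ℝ) := by
    intro v
    rw [kc_eq]
    simp
  rw [sum_congr rfl (fun v _ => e1 v), h3]
  have e2 : ∀ K ∈ clq G univ (j + 1), ∑ v ∈ K, (1 : ℝ) = (j : ℝ) + 1 := by
    intro K hK
    rw [sum_const, ((mem_clq G).1 hK).2.1, nsmul_eq_mul]
    push_cast
    ring
  rw [sum_congr rfl e2, sum_const, ← kc_eq, nsmul_eq_mul]
  ring

lemma ph_nonneg {p r : ℕ} (h : PrZ p r) : 0 ≤ ph p r := by
  unfold ph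
  have h1 : (r : ℝ) ≤ p := by exact_mod_cast h.rp
  apply div_nonneg
  · linarith
  · positivity

lemma Mz_nonneg {p r a : ℕ} (h : PrZ p r) : 0 ≤ Mz p r a := by
  unfold Mz
  have := ph_nonneg h
  positivity

end H88WSG

open H88WSG in
theorem wsg_thm (hWSV : WSVStmt) (hPHI : PHI0Stmt) : WSGStmt := by
  intro p r hP
  obtain ⟨c, C, hc, hC, hW⟩ := hWSV p r hP
  refine ⟨C, hC, ?_⟩
  intro ε e K hε he he8
  have hε' : 0 < c * ε / 4 := by positivity
  obtain ⟨a₁, h1⟩ := hW (c * ε / 4) e hε' he he8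
  refine ⟨max a₁ (⌈4 * |K| / (c * ε)⌉₊ + 1), ?_⟩
  intro a ha V _ _ G hG hsum
  have ha1 : a₁ ≤ a := (le_max_left _ _).trans ha
  have ha2 : ⌈4 * |K| / (c * ε)⌉₊ + 1 ≤ a := (le_max_right _ _).trans ha
  have hapos : (0 : ℝ) < a := by
    have : 0 < a := by omega
    exact_mod_cast this
  have haK : 4 * |K| / (c * ε) ≤ a := by
    have h2 : 4 * |K| / (c * ε) ≤ (⌈4 * |K| / (c * ε)⌉₊ : ℝ) := Nat.le_ceil _
    have h3 : ((⌈4 * |K| / (c * ε)⌉₊ : ℕ) : ℝ) ≤ a := by
      have : ⌈4 * |K| / (c * ε)⌉₊ ≤ a := by omega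
      exact_mod_cast this
    linarith
  have hK : |K| ≤ c * ε / 4 * a := by
    rw [div_le_iff₀ (by positivity)] at haK
    linarith
  have h2 := h1 a ha1 G hG
  choose s hs using h2
  have hr1 : 1 ≤ r := by have := hP.rb; omega
  have hP0 : Pr0 p 0 r := ⟨Nat.zero_le _, hr1, hP.rp⟩
  -- sum over all vertices
  have hex := H14GLO.exch (G := G) (p + 3) (fun v L => min (r : ℝ) (XX G p r a (nb G univ v) L))
  have hphi := hPHI G p 0 r a hP0 hG.cb hG.deg
  have h4 : (r : ℝ) * kc G univ (p + 4) ≤ ∑ K ∈ clq G univ (p + 4), ∑ v ∈ K,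
      min (r : ℝ) (XX G p r a (nb G univ v) (K.erase v)) := by
    rw [kc_eq, mul_comm, ← nsmul_eq_mul]
    exact card_nsmul_le_sum _ _ _ hphi
  have h5 := sum_kc G (p + 3)
  have h6 : ∑ v, (Mz p r a * ∑ L ∈ clq G (nb G univ v) (p + 3),
        min (r : ℝ) (XX G p r a (nb G univ v) L) -
      Mz p r a * ((r : ℝ) / ((p : ℝ) + 4)) * kc G (nb G univ v) (p + 3) + lz p r * a + s v * a) ≤
      ∑ v, (df G p 0 r a (nb G univ v) + c * ε / 4 * a) :=
    sum_le_sum (fun v _ => (hs v).2)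
  rw [sum_add_distrib, sum_add_distrib, sum_sub_distrib, ← mul_sum, ← mul_sum, sum_add_distrib,
    sum_const, sum_const, hex, h5, card_univ, nsmul_eq_mul, nsmul_eq_mul, ← sum_mul] at h6
  have h7 := mul_le_mul_of_nonneg_left h4 (Mz_nonneg (a := a) hP)
  have h8 : Mz p r a * ((r : ℝ) / ((p : ℝ) + 4)) * (((p + 3 : ℕ) : ℝ) + 1) *
      kc G univ (p + 3 + 1) = Mz p r a * (r * kc G univ (p + 4)) := by
    have hp4 : ((p : ℝ) + 4) ≠ 0 := by positivity
    push_cast
    field_simp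
    ring
  have h9 : (∑ v, s v) * a ≤ K * Fintype.card V + c * ε / 4 * a * Fintype.card V := by
    have h10 : Mz p r a * ((r : ℝ) / ((p : ℝ) + 4)) * ((((p + 3 : ℕ) : ℝ) + 1) *
      kc G univ (p + 3 + 1)) = Mz p r a * (r * kc G univ (p + 4)) := by
      rw [← h8]; ring
    rw [h10] at h6
    have h11 : Mz p r a * ∑ K ∈ clq G univ (p + 3 + 1), ∑ v ∈ K,
        min (r : ℝ) (XX G p r a (nb G univ v) (K.erase v)) =
        Mz p r a * ∑ K ∈ clq G univ (p + 4), ∑ v ∈ K,
        min (r : ℝ) (XX G p r a (nb G univ v) (K.erase v)) := rfl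
    rw [h11] at h6
    nlinarith [h6, h7, hsum]
  -- the clean vertices
  classical
  have hsum2 : ∑ v, s v = c * ((univ.filter (fun v => s v = c)).card : ℝ) := by
    have h12 : ∀ v, s v = if s v = c then c else 0 := by
      intro v
      by_cases h : s v = c
      · simp [h]
      · rw [if_neg h]
        rcases (hs v).1 with h' | h'
        · exact absurd h' h
        · exact h'.1
    rw [sum_congr rfl (fun v _ => h12 v), sum_ite, sum_const, sum_const_zero, add_zero,
      nsmul_eq_mul, mul_comm]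
  have hP' : ∀ v, ∃ P : Fin (p + 3) → Finset V, s v ≠ c → Cl G p r a e C v P := by
    intro v
    by_cases h : s v = c
    · exact ⟨fun _ => ∅, fun h' => absurd h h'⟩
    · rcases (hs v).1 with h' | ⟨-, P, h'⟩
      · exact absurd h' h
      · exact ⟨P, fun _ => h'⟩
  choose P hPv using hP'
  refine ⟨univ.filter (fun v => s v ≠ c), P, ?_, ?_⟩
  · intro v hv
    exact hPv v (mem_filter.1 hv).2
  · have hcomp : univ \ univ.filter (fun v => s v ≠ c) = univ.filter (fun v => s v = c) := by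
      ext v
      simp
    rw [hcomp]
    rw [hsum2] at h9
    set M : ℝ := ((univ.filter (fun v => s v = c)).card : ℝ) with hM
    set m : ℝ := (Fintype.card V : ℝ) with hm
    have hm0 : 0 ≤ m := by positivity
    have hKm : K * m ≤ c * ε / 4 * a * m :=
      mul_le_mul_of_nonneg_right ((le_abs_self K).trans hK) hm0
    have h13 : c * M * a ≤ c * a * (ε * m) := by
      have h14 : c * ε / 4 * a * m + c * ε / 4 * a * m ≤ c * a * (ε * m) := by
        have : 0 ≤ c * ε * a * m := by positivity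
        nlinarith
      linarith
    have h15 : (c * a) * M ≤ (c * a) * (ε * m) := by linarith
    exact le_of_mul_le_mul_left h15 (by positivity)

end Pool.HZ7
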